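import Pool.Agent.Lib.MP_467880_co.S4

/-!
# Voronoi's conjecture holds for parallelohedra with irreducible reflection symmetry

Let `P` be a centrally symmetric convex body which tiles space face-to-face by the translates from a
lattice `L`. If only the multiples of `v` are fixed by the (linear isometric) symmetries of `P` which
fix `v`, for every Voronoi vector `v` of `L`, then `P` is the Dirichlet-Voronoi cell of `L`. This holds
when `P` is invariant under the reflections in the hyperplanes orthogonal to the vectors of a set, and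
no proper non-zero subspace is invariant under all these reflections.
-/

set_option autoImplicit false

open Set Module

namespace Pool.Agent.Results.MP_467880_co.ReflectionSymmetry

/-- the translates of `P` by the vectors of the lattice with basis `b` form a face-to-face tiling: they
cover space, have pairwise disjoint interiors, and meet `P` in extreme subsets of `P` -/
def FaceToFaceTiling {d : ℕ} (P : Set (EuclideanSpace ℝ (Fin d)))
    (b : Module.Basis (Fin d) ℝ (EuclideanSpace ℝ (Fin d))) : Prop :=
  (⋃ v ∈ Submodule.span ℤ (Set.range b), (fun x => v + x) '' P) = Set.univ ∧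
  (∀ v ∈ Submodule.span ℤ (Set.range b), ∀ w ∈ Submodule.span ℤ (Set.range b), v ≠ w →
    Disjoint (interior ((fun x => v + x) '' P)) (interior ((fun x => w + x) '' P))) ∧
  ∀ v ∈ Submodule.span ℤ (Set.range b), IsExtreme ℝ P (P ∩ (fun x => v + x) '' P)

/-- the Dirichlet-Voronoi cell of the lattice with basis `c` -/
def VoronoiCell {d : ℕ} (c : Module.Basis (Fin d) ℝ (EuclideanSpace ℝ (Fin d))) :
    Set (EuclideanSpace ℝ (Fin d)) :=
  {x | ∀ v ∈ Submodule.span ℤ (Set.range c), ‖x‖ ≤ ‖x - v‖}

/-- some invertible affine map sends `P` onto the Dirichlet-Voronoi cell of some lattice -/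
def IsAffineVoronoi {d : ℕ} (P : Set (EuclideanSpace ℝ (Fin d))) : Prop :=
  ∃ (c : Module.Basis (Fin d) ℝ (EuclideanSpace ℝ (Fin d)))
    (A : EuclideanSpace ℝ (Fin d) ≃ᵃ[ℝ] EuclideanSpace ℝ (Fin d)), A '' P = VoronoiCell c

/-- `v` is a Voronoi vector of the lattice `L` with basis `c`: `v ≠ 0`, and `v` and `-v` are the only
vectors of norm at most `‖v‖` in the class `v + 2 L` -/
def IsVoronoiVector {d : ℕ} (c : Module.Basis (Fin d) ℝ (EuclideanSpace ℝ (Fin d)))
    (v : EuclideanSpace ℝ (Fin d)) : Prop :=
  v ∈ Submodule.span ℤ (Set.range c) ∧ v ≠ 0 ∧ ∀ u ∈ Submodule.span ℤ (Set.range c),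
    ‖v + (2 : ℝ) • u‖ ≤ ‖v‖ → v + (2 : ℝ) • u = v ∨ v + (2 : ℝ) • u = -v

/-- only the multiples of `v` are fixed by all linear isometries which preserve `Q` and fix `v` -/
def RigidAt {d : ℕ} (Q : Set (EuclideanSpace ℝ (Fin d))) (v : EuclideanSpace ℝ (Fin d)) : Prop :=
  ∀ y, (∀ g : EuclideanSpace ℝ (Fin d) ≃ₗᵢ[ℝ] EuclideanSpace ℝ (Fin d), g '' Q = Q → g v = v →
    g y = y) → ∃ t : ℝ, y = t • v

/-- the reflection in the hyperplane orthogonal to `a` (the identity if `a = 0`) -/
noncomputable def reflectIn {d : ℕ} (a x : EuclideanSpace ℝ (Fin d)) : EuclideanSpace ℝ (Fin d) :=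
  x - (2 * inner ℝ a x / ‖a‖ ^ 2) • a

/-- `Q` is invariant under the reflections in the hyperplanes orthogonal to the vectors of a set `R`,
and no subspace except `0` and the whole space is invariant under all these reflections -/
def HasIrreducibleReflections {d : ℕ} (Q : Set (EuclideanSpace ℝ (Fin d))) : Prop :=
  ∃ R : Set (EuclideanSpace ℝ (Fin d)), (∀ a ∈ R, reflectIn a '' Q = Q) ∧
    ∀ U : Submodule ℝ (EuclideanSpace ℝ (Fin d)),
      (∀ a ∈ R, ∀ x ∈ U, reflectIn a x ∈ U) → U = ⊥ ∨ U = ⊤

open VorSym

theorem result (d : ℕ) (P Q : Set (EuclideanSpace ℝ (Fin d)))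
    (b c : Module.Basis (Fin d) ℝ (EuclideanSpace ℝ (Fin d)))
    (B : EuclideanSpace ℝ (Fin d) ≃ᵃ[ℝ] EuclideanSpace ℝ (Fin d)) (hconv : Convex ℝ P)
    (hcomp : IsCompact P) (htil : FaceToFaceTiling P b) (hQ : B '' P = Q)
    (hc : b.map B.linear = c) (hcen : ∀ x ∈ Q, -x ∈ Q)
    (hsym : (∀ v, IsVoronoiVector c v → RigidAt Q v) ∨ HasIrreducibleReflections Q) :
    Q = VoronoiCell c ∧ IsAffineVoronoi P := by
  subst hQ
  subst hc
  have hrefl : ∀ a : EuclideanSpace ℝ (Fin d), reflectIn a = refl a :=
    fun a => funext fun x => (refl_apply a x).symm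
  obtain ⟨hcov, hdis, hext⟩ := htil
  obtain ⟨L, hL⟩ : ∃ L : Submodule ℤ (EuclideanSpace ℝ (Fin d)),
    L = Submodule.span ℤ (Set.range b) := ⟨_, rfl⟩
  rw [← hL] at hcov hdis hext
  have hG : GT P (L : Set (EuclideanSpace ℝ (Fin d))) := by
    refine
      { zero := L.zero_mem
        add := fun v hv w hw => L.add_mem hv hw
        neg := fun v hv => L.neg_mem hv
        fin := ?_
        conv := hconv
        comp := hcomp
        cover := ?_
        disj := ?_
        ext := ?_ }
    · intro r
      have h2 := ZSpan.setFinite_inter b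
        (isCompact_closedBall (0 : EuclideanSpace ℝ (Fin d)) r).isBounded
      refine h2.subset ?_
      rintro v ⟨hv, hn⟩
      refine ⟨?_, ?_⟩
      · rw [Metric.mem_closedBall, dist_zero_right]
        exact hn
      · rw [← hL]
        exact hv
    · intro x
      have hx : x ∈ ⋃ v ∈ L, (fun x => v + x) '' P := by
        rw [hcov]
        exact mem_univ _
      simp only [mem_iUnion] at hx
      obtain ⟨v, hv, p, hp, hvp⟩ := hx
      refine ⟨v, hv, ?_⟩
      have h1 : v + p = x := hvp
      rwa [← h1, add_sub_cancel_left]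
    · intro v hv hv0 x hx hx'
      have h3 := hdis 0 L.zero_mem v hv hv0.symm
      have h4 : x ∈ interior ((fun x => (0 : EuclideanSpace ℝ (Fin d)) + x) '' P) := by
        simpa using hx
      have h5 : x ∈ interior ((fun x => v + x) '' P) := by
        have h6 : (fun x => v + x) '' interior P ⊆ interior ((fun x => v + x) '' P) :=
          ((isOpenMap_add_left v).image_interior_subset P)
        exact h6 ⟨x - v, hx', add_sub_cancel _ _⟩
      exact disjoint_left.1 h3 h4 h5
    · intro v hv x hx y hy z hz hzv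
      have hzP : z ∈ P := hconv.openSegment_subset hx hy hz
      have h2 := (hext v hv).left_mem_of_mem_openSegment hx hy
        ⟨hzP, ⟨z - v, hzv, add_sub_cancel _ _⟩⟩ hz
      obtain ⟨q, hq, hqx⟩ := h2.2
      have h3 : v + q = x := hqx
      rwa [← h3, add_sub_cancel_left]
  have hspan : ∀ v, v ∈ Submodule.span ℤ (Set.range (b.map B.linear)) ↔
      v ∈ B.linear '' (L : Set (EuclideanSpace ℝ (Fin d))) := by
    intro v
    have h1 : Set.range (b.map B.linear) =
        (((B.linear : EuclideanSpace ℝ (Fin d) →ₗ[ℝ] EuclideanSpace ℝ (Fin d)).restrictScalars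
          ℤ)) '' Set.range b := by
      rw [← Set.range_comp]
      congr 1
    rw [h1, ← Submodule.map_span, Submodule.mem_map, ← hL]
    rfl
  have hG' := hG.map B
  have key : B '' P = {x | ∀ v ∈ B.linear '' (L : Set (EuclideanSpace ℝ (Fin d))),
      ‖x‖ ≤ ‖x - v‖} := by
    rcases hsym with h | ⟨R, hR, hirr⟩
    · refine hG'.rigid hcen fun v hv y hy => ?_
      refine h v ⟨(hspan v).2 hv.1, hv.2.1, fun u hu hle => ?_⟩ y hy
      exact hv.2.2 u ((hspan u).1 hu) hle
    · refine hG'.irred hcen (R := R) (fun a ha => ?_) fun U hU => hirr U fun a ha x hx => ?_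
      · rw [← hrefl]
        exact hR a ha
      · rw [hrefl]
        exact hU a ha x hx
  have hcell : B '' P = VoronoiCell (b.map B.linear) := by
    rw [key]
    ext x
    constructor
    · intro hx v hv
      exact hx v ((hspan v).1 hv)
    · intro hx v hv
      exact hx v ((hspan v).2 hv)
  exact ⟨hcell, _, B, hcell⟩

end Pool.Agent.Results.MP_467880_co.ReflectionSymmetry
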