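import Pool.Agent.Lib.MP_467880_co.Main

/-!
# Voronoi's conjecture holds for parallelohedra which are symmetric in the coordinate hyperplanes

A compact convex set `P` which tiles space face-to-face by the translates from a lattice and which is
invariant under the `d` coordinate reflections of some affine coordinate system is an affine image of
the Dirichlet-Voronoi cell of a lattice.
-/

set_option autoImplicit false

open Set Module

namespace Pool.Agent.Results.MP_467880_co.Unconditional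

open VorUnc

theorem flp_insert {d : ℕ} {s : Finset (Fin d)} {i : Fin d} (hi : i ∉ s) (x : Fin d → ℝ) :
    flp (insert i s) x = Function.update (flp s x) i (-(flp s x i)) := by
  funext j
  by_cases hj : j = i
  · subst hj
    simp [flp, hi]
  · simp [flp, hj]

theorem flp_mem {d : ℕ} {Q : Set (Fin d → ℝ)}
    (h : ∀ x ∈ Q, ∀ i, Function.update x i (-(x i)) ∈ Q) {x : Fin d → ℝ} (hx : x ∈ Q)
    (c : Finset (Fin d)) : flp c x ∈ Q := by
  induction c using Finset.induction_on with
  | empty =>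
    have : flp ∅ x = x := by
      funext j
      simp [flp]
    rwa [this]
  | insert i s hi ih =>
    rw [flp_insert hi]
    exact h _ ih i

/-- the linear map `x ↦ (√(w i) x i)` -/
noncomputable def dil {d : ℕ} (w : Fin d → ℝ) (hw : ∀ i, 0 < w i) :
    (Fin d → ℝ) ≃ₗ[ℝ] EuclideanSpace ℝ (Fin d) :=
  (LinearEquiv.piCongrRight fun i =>
    LinearEquiv.smulOfNeZero ℝ ℝ (Real.sqrt (w i)) (Real.sqrt_pos.2 (hw i)).ne').trans
    (WithLp.linearEquiv 2 ℝ (Fin d → ℝ)).symm

theorem dil_norm {d : ℕ} (w : Fin d → ℝ) (hw : ∀ i, 0 < w i) (x : Fin d → ℝ) :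
    ‖dil w hw x‖ ^ 2 = ∑ i, w i * x i ^ 2 := by
  rw [EuclideanSpace.norm_sq_eq]
  refine Finset.sum_congr rfl fun i _ => ?_
  have : (dil w hw x) i = Real.sqrt (w i) * x i := rfl
  rw [this, Real.norm_eq_abs, sq_abs, mul_pow, Real.sq_sqrt (hw i).le]

/-- the translates of `P` by the vectors of the lattice with basis `b` form a face-to-face tiling: they
cover space, have pairwise disjoint interiors, and meet `P` in extreme subsets of `P` -/
def FaceToFaceTiling {d : ℕ} (P : Set (EuclideanSpace ℝ (Fin d)))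
    (b : Module.Basis (Fin d) ℝ (EuclideanSpace ℝ (Fin d))) : Prop :=
  (⋃ v ∈ Submodule.span ℤ (Set.range b), (fun x => v + x) '' P) = Set.univ ∧
  (∀ v ∈ Submodule.span ℤ (Set.range b), ∀ w ∈ Submodule.span ℤ (Set.range b), v ≠ w →
    Disjoint (interior ((fun x => v + x) '' P)) (interior ((fun x => w + x) '' P))) ∧
  ∀ v ∈ Submodule.span ℤ (Set.range b), IsExtreme ℝ P (P ∩ (fun x => v + x) '' P)

/-- some invertible affine map sends `P` onto the Dirichlet-Voronoi cell of some lattice -/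
def IsAffineVoronoi {d : ℕ} (P : Set (EuclideanSpace ℝ (Fin d))) : Prop :=
  ∃ (c : Module.Basis (Fin d) ℝ (EuclideanSpace ℝ (Fin d)))
    (A : EuclideanSpace ℝ (Fin d) ≃ᵃ[ℝ] EuclideanSpace ℝ (Fin d)),
    A '' P = {x | ∀ v ∈ Submodule.span ℤ (Set.range c), ‖x‖ ≤ ‖x - v‖}

/-- `P` is invariant under the `d` reflections in the coordinate hyperplanes of the affine coordinate
system `B` -/
def IsUnconditional {d : ℕ} (P : Set (EuclideanSpace ℝ (Fin d)))
    (B : EuclideanSpace ℝ (Fin d) ≃ᵃ[ℝ] (Fin d → ℝ)) : Prop :=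
  ∀ x ∈ P, ∀ i, B.symm (Function.update (B x) i (-(B x i))) ∈ P

theorem result (d : ℕ) (P : Set (EuclideanSpace ℝ (Fin d)))
    (b : Module.Basis (Fin d) ℝ (EuclideanSpace ℝ (Fin d)))
    (B : EuclideanSpace ℝ (Fin d) ≃ᵃ[ℝ] (Fin d → ℝ)) (hconv : Convex ℝ P) (hcomp : IsCompact P)
    (htil : FaceToFaceTiling P b) (hsym : IsUnconditional P B) : IsAffineVoronoi P := by
  obtain ⟨hcov, hdis, hext⟩ := htil
  obtain ⟨e, he⟩ : ∃ e : EuclideanSpace ℝ (Fin d) ≃ₗ[ℝ] (Fin d → ℝ), e = B.linear := ⟨_, rfl⟩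
  have hBadd : ∀ v x, B (v + x) = e v + B x := by
    intro v x
    have := B.map_vadd x v
    rw [he]
    exact this
  have hBcont : Continuous B := (B : EuclideanSpace ℝ (Fin d) →ᵃ[ℝ] (Fin d → ℝ)).continuous_of_finiteDimensional
  have hBscont : Continuous B.symm :=
    (B.symm : (Fin d → ℝ) →ᵃ[ℝ] EuclideanSpace ℝ (Fin d)).continuous_of_finiteDimensional
  let Bh : EuclideanSpace ℝ (Fin d) ≃ₜ (Fin d → ℝ) :=
    { B.toEquiv with
      continuous_toFun := hBcont
      continuous_invFun := hBscont }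
  have hBint : interior (B '' P) = B '' interior P := (Bh.image_interior P).symm
  obtain ⟨L, hL⟩ : ∃ L : Submodule ℤ (EuclideanSpace ℝ (Fin d)),
    L = Submodule.span ℤ (Set.range b) := ⟨_, rfl⟩
  have hT : Til (B '' P) (e '' (L : Set (EuclideanSpace ℝ (Fin d)))) := by
    refine
      { zero := ⟨0, L.zero_mem, map_zero e⟩
        add := ?_
        neg := ?_
        fin := ?_
        conv := hconv.affine_image (B : EuclideanSpace ℝ (Fin d) →ᵃ[ℝ] (Fin d → ℝ))
        comp := hcomp.image hBcont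
        cover := ?_
        disj := ?_
        ext := ?_ }
    · rintro _ ⟨u, hu, rfl⟩ _ ⟨w, hw, rfl⟩
      exact ⟨u + w, L.add_mem hu hw, map_add e u w⟩
    · rintro _ ⟨u, hu, rfl⟩
      exact ⟨-u, L.neg_mem hu, map_neg e u⟩
    · intro R
      have h1 : IsCompact (e.symm '' Metric.closedBall (0 : Fin d → ℝ) R) :=
        (isCompact_closedBall (0 : Fin d → ℝ) R).image
          (e.symm : (Fin d → ℝ) →ₗ[ℝ] EuclideanSpace ℝ (Fin d)).continuous_of_finiteDimensional
      have h2 := ZSpan.setFinite_inter b h1.isBounded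
      refine (h2.image e).subset ?_
      rintro _ ⟨⟨u, hu, rfl⟩, hn⟩
      refine ⟨u, ⟨⟨e u, ?_, e.symm_apply_apply u⟩, ?_⟩, rfl⟩
      · rw [Metric.mem_closedBall, dist_zero_right]
        exact hn
      · rw [← hL]
        exact hu
    · intro x
      have hx : B.symm x ∈ ⋃ v ∈ Submodule.span ℤ (Set.range b), (fun x => v + x) '' P := by
        rw [hcov]
        exact mem_univ _
      simp only [mem_iUnion] at hx
      obtain ⟨v, hv, p, hp, hvp⟩ := hx
      refine ⟨e v, ⟨v, by rw [hL]; exact hv, rfl⟩, p, hp, ?_⟩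
      have h1 : B (v + p) = x := by
        have : v + p = B.symm x := hvp
        rw [this, AffineEquiv.apply_symm_apply]
      rw [← h1, hBadd, add_sub_cancel_left]
    · rintro _ ⟨u, hu, rfl⟩ hu0 x hx hx'
      rw [hBint] at hx hx'
      obtain ⟨p, hp, rfl⟩ := hx
      obtain ⟨p', hp', hpp⟩ := hx'
      have h1 : B (u + p') = B p := by
        rw [hBadd, hpp, add_sub_cancel]
      have h2 : u + p' = p := B.injective h1
      have hu0' : u ≠ 0 := by
        rintro rfl
        exact hu0 (map_zero e)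
      have h3 := hdis 0 (Submodule.zero_mem _) u (by rw [← hL]; exact hu) hu0'.symm
      have h4 : p ∈ interior ((fun x => (0 : EuclideanSpace ℝ (Fin d)) + x) '' P) := by
        simpa using hp
      have h5 : p ∈ interior ((fun x => u + x) '' P) := by
        have h6 : (fun x => u + x) '' interior P ⊆ interior ((fun x => u + x) '' P) :=
          ((isOpenMap_add_left u).image_interior_subset P)
        exact h6 ⟨p', hp', h2⟩
      exact disjoint_left.1 h3 h4 h5
    · rintro _ ⟨u, hu, rfl⟩ _ ⟨a, ha, rfl⟩ _ ⟨c, hc, rfl⟩ z hz hzv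
      have hz' : B.symm z ∈ openSegment ℝ a c := by
        obtain ⟨s, t, hs, ht, hst, hzst⟩ := hz
        refine ⟨s, t, hs, ht, hst, ?_⟩
        apply B.injective
        rw [AffineEquiv.apply_symm_apply, ← hzst]
        exact Convex.combo_affine_apply (f := (B : EuclideanSpace ℝ (Fin d) →ᵃ[ℝ] (Fin d → ℝ))) hst
      obtain ⟨p, hp, hpz⟩ := hzv
      have h1 : u + p = B.symm z := by
        apply B.injective
        rw [hBadd, AffineEquiv.apply_symm_apply, hpz, add_sub_cancel]
      have hzP : B.symm z ∈ P := hconv.openSegment_subset ha hc hz'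
      have h2 := (hext u (by rw [← hL]; exact hu)).left_mem_of_mem_openSegment ha hc
        ⟨hzP, ⟨p, hp, h1⟩⟩ hz'
      obtain ⟨q, hq, hqa⟩ := h2.2
      refine ⟨q, hq, ?_⟩
      have h3 : u + q = a := hqa
      rw [← h3, hBadd, add_sub_cancel_left]
  have hunc : ∀ x ∈ B '' P, ∀ c, flp c x ∈ B '' P := by
    intro x hx c
    refine flp_mem ?_ hx c
    rintro _ ⟨p, hp, rfl⟩ i
    refine ⟨_, hsym p hp i, ?_⟩
    rw [AffineEquiv.apply_symm_apply]
  obtain ⟨w, hw, hP⟩ := hT.main hunc
  refine ⟨b.map (e.trans (dil w hw)), B.trans (dil w hw).toAffineEquiv, ?_⟩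
  have hnorm : ∀ x y : Fin d → ℝ, ‖dil w hw x‖ ≤ ‖dil w hw y‖ ↔
      ∑ i, w i * x i ^ 2 ≤ ∑ i, w i * y i ^ 2 := by
    intro x y
    rw [← dil_norm w hw, ← dil_norm w hw, sq_le_sq₀ (norm_nonneg _) (norm_nonneg _)]
  have hspan : ∀ v, v ∈ Submodule.span ℤ (Set.range (b.map (e.trans (dil w hw)))) ↔
      ∃ u ∈ L, dil w hw (e u) = v := by
    intro v
    have h1 : Set.range (b.map (e.trans (dil w hw))) =
        ((((e.trans (dil w hw)) : EuclideanSpace ℝ (Fin d) →ₗ[ℝ] EuclideanSpace ℝ (Fin d)).restrictScalars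
          ℤ)) '' Set.range b := by
      rw [← Set.range_comp]
      congr 1
    rw [h1, ← Submodule.map_span, Submodule.mem_map, ← hL]
    rfl
  ext y
  constructor
  · rintro ⟨p, hp, rfl⟩ v hv
    obtain ⟨u, hu, rfl⟩ := (hspan v).1 hv
    have h1 : B p ∈ B '' P := ⟨p, hp, rfl⟩
    rw [hP] at h1
    have h2 := h1 (e u) ⟨u, hu, rfl⟩
    show ‖dil w hw (B p)‖ ≤ ‖dil w hw (B p) - dil w hw (e u)‖
    rw [← map_sub, hnorm]
    exact h2
  · intro hy
    have h1 : (dil w hw).symm y ∈ B '' P := by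
      rw [hP]
      rintro _ ⟨u, hu, rfl⟩
      have h2 := hy _ ((hspan _).2 ⟨u, hu, rfl⟩)
      have h3 : ‖dil w hw ((dil w hw).symm y)‖ ≤ ‖dil w hw ((dil w hw).symm y - e u)‖ := by
        rw [map_sub, LinearEquiv.apply_symm_apply]
        exact h2
      rw [hnorm] at h3
      exact h3
    obtain ⟨p, hp, hpy⟩ := h1
    refine ⟨p, hp, ?_⟩
    show dil w hw (B p) = y
    rw [hpy, LinearEquiv.apply_symm_apply]

end Pool.Agent.Results.MP_467880_co.Unconditional
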